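import Pool.Agent.H38.SpecDehn.Bound

/-!
Answer to Q2: the quantity `μ̃_1 (Δ_n)` is not comparable with `n ^ (-2)`; it is at most
`C / (n ^ 2 log n)`.
-/

open Pool.Agent.H38.SpecDehn

namespace Pool.Agent.Results.MP_442c46_al.LogGain

/-- `μ̃_1 (Δ_n) ≤ C / (n ^ 2 log n)` and hence `liminf n ^ 2 μ̃_1 (Δ_n) = 0`. -/
theorem result :
    Filter.liminf (fun n : ℕ => (n : ℝ) ^ 2 * muTilde n) Filter.atTop = 0 ∧
      ∃ C : ℝ, ∀ n : ℕ, 4 ≤ n → muTilde n ≤ C / ((n : ℝ) ^ 2 * Real.log n) :=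
  ⟨tendsto_zero.liminf_eq, _, fun _ hn => muTilde_le hn⟩

end Pool.Agent.Results.MP_442c46_al.LogGain
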