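import Pool.Agent.H86.SD.Fin

/-!
# MP_442c46_al, question Q1: `Λ*(n) ≍ n⁻²` is false

`LamStar n` is the face-dual spectral Dehn function of the presentation
`⟨x, y, z | [x,y]z⁻¹, [x,z], [y,z]⟩` of the discrete Heisenberg group (all definitions are in
Pool/Agent/H86/SD/Def.lean).  We show `n² Λ*(n) ≤ C / log n` for `n ≥ 28`, so `liminf n² Λ*(n) = 0`.
-/

open scoped ENNReal

noncomputable section

namespace Pool.Agent.Results.MP_442c46_al.SpectralDehn

open Pool.Agent.H86.SD

theorem tendsto_zero :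
    Filter.Tendsto (fun n : ℕ => (n : ℝ≥0∞) ^ 2 * LamStar n) Filter.atTop (nhds 0) := by
  have h1 : Filter.Tendsto (fun n : ℕ => ENNReal.ofReal (43545600 / Real.log n)) Filter.atTop
      (nhds 0) := by
    rw [← ENNReal.ofReal_zero]
    apply ENNReal.tendsto_ofReal
    apply Filter.Tendsto.const_div_atTop
    exact Real.tendsto_log_atTop.comp tendsto_natCast_atTop_atTop
  refine tendsto_of_tendsto_of_tendsto_of_le_of_le' tendsto_const_nhds h1
    (Filter.Eventually.of_forall fun n => by simp) ?_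
  filter_upwards [Filter.eventually_ge_atTop 28] with n hn
  have hn0 : (0 : ℝ) < n := by
    have : (28 : ℝ) ≤ n := by exact_mod_cast hn
    linarith
  have h2 : ((n : ℝ≥0∞)) ^ 2 = ENNReal.ofReal ((n : ℝ) ^ 2) := by
    rw [ENNReal.ofReal_pow hn0.le, ENNReal.ofReal_natCast]
  calc (n : ℝ≥0∞) ^ 2 * LamStar n
      ≤ (n : ℝ≥0∞) ^ 2 * ENNReal.ofReal (43545600 / ((n : ℝ) ^ 2 * Real.log n)) := by
        gcongr
        exact lam_le hn
    _ = ENNReal.ofReal (43545600 / Real.log n) := by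
        rw [h2, ← ENNReal.ofReal_mul (by positivity)]
        congr 1
        have : (n : ℝ) ^ 2 ≠ 0 := by positivity
        field_simp

/-- `Λ*(n) ≤ C / (n² log n)` for `n ≥ 28`, and `liminf n² Λ*(n) = 0`. -/
theorem result :
    (∀ n : ℕ, 28 ≤ n →
      LamStar n ≤ ENNReal.ofReal (43545600 / ((n : ℝ) ^ 2 * Real.log n))) ∧
    Filter.liminf (fun n : ℕ => (n : ℝ≥0∞) ^ 2 * LamStar n) Filter.atTop = 0 :=
  ⟨fun _ hn => lam_le hn, tendsto_zero.liminf_eq⟩

end Pool.Agent.Results.MP_442c46_al.SpectralDehn
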